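import Pool.Agent.H782.Kom.Gen2

/-!
# The Beck–Fiala problem for set systems with interchangeable indices

Let the sets of a system of maximum degree `t` be indexed by the ordered pairs of elements of
`{0, ..., n-1}` (for instance: the ground set is a family of graphs on `n` labelled vertices that
have at most `t` edges, closed under isomorphism, and the set of a pair consists of the graphs in
the family that contain it), and let the system be invariant under the permutations of
`{0, ..., n-1}`. Then its discrepancy is at most `43 (1 + log₂ t) ^ 2`, so much smaller than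
`√ t`. If the sets are indexed by the elements of `{0, ..., n-1}`, then it is at most
`3 (1 + log₂ t)`. Only invariance under the swaps of the halves of dyadic blocks is used.

Proof: see `Pool/Agent/H782/Kom`. Points with equal columns are cancelled in pairs; the other
columns are sorted by the first block `v` whose swap moves the column and the first such block `w`
not containing `v`, and those with given `(v, w)` are coloured antisymmetrically under both swaps,
so that few constraints remain. A zero-one column that is constant on the halves of `v` and `w`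
and does not vanish there has at least `|v| |w| / 4` ones, so `|v| |w| ≤ 4 t`, and only
`O((log t) ^ 2)` sizes contribute.
-/

set_option autoImplicit false

namespace Pool.Agent.Results.MP_e8ee11_co.InvariantSystems

open Finset

/-- `g` swaps the two halves of the block `{i 2^(h+1), ..., (i+1) 2^(h+1) - 1}`, which is contained
in `{0, ..., n-1}`, and fixes all other elements: on the block it flips the binary digit at
`2^h`. -/
def IsBlockSwap {n : ℕ} (g : Equiv.Perm (Fin n)) : Prop :=
  ∃ h i : ℕ, (i + 1) * 2 ^ (h + 1) ≤ n ∧
    ∀ a : Fin n, (g a : ℕ) = if (a : ℕ) / 2 ^ (h + 1) = i then (a : ℕ) ^^^ 2 ^ h else (a : ℕ)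

/-- The system of the sets `S a b` is invariant: for each block swap `g` of the indices some
permutation of the points maps `S a b` onto `S (g a) (g b)` for all `a, b`. -/
def InvariantPairs {n : ℕ} {V : Type} (S : Fin n → Fin n → Finset V) : Prop :=
  ∀ g : Equiv.Perm (Fin n), IsBlockSwap g →
    ∃ τ : Equiv.Perm V, ∀ x a b, τ x ∈ S (g a) (g b) ↔ x ∈ S a b

/-- The system of the sets `S a` is invariant: for each block swap `g` of the indices some
permutation of the points maps `S a` onto `S (g a)` for all `a`. -/
def InvariantSets {n : ℕ} {V : Type} (S : Fin n → Finset V) : Prop :=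
  ∀ g : Equiv.Perm (Fin n), IsBlockSwap g → ∃ τ : Equiv.Perm V, ∀ x a, τ x ∈ S (g a) ↔ x ∈ S a

lemma to_int {V : Type} [Fintype V] (ε : V → ℝ) (hε : ∀ x, ε x = 1 ∨ ε x = -1) :
    ∃ χ : V → ℤ, (∀ x, χ x = 1 ∨ χ x = -1) ∧ ∀ x, (χ x : ℝ) = ε x := by
  classical
  refine ⟨fun x => if ε x = 1 then 1 else -1, ?_, ?_⟩
  · intro x
    by_cases h : ε x = 1
    · left; simp [h]
    · right; simp [h]
  · intro x
    by_cases h : ε x = 1
    · simp [h]
    · have := (hε x).resolve_left h
      simp only [this]
      norm_num

theorem result :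
    (∀ (n : ℕ) (V : Type) [Fintype V] (S : Fin n → Fin n → Finset V) (t : ℕ), InvariantPairs S →
      (∀ x : V, Nat.card {p : Fin n × Fin n // x ∈ S p.1 p.2} ≤ t) →
      ∃ χ : V → ℤ, (∀ x, χ x = 1 ∨ χ x = -1) ∧
        ∀ a b, |∑ x ∈ S a b, χ x| ≤ 43 * ((Nat.log 2 t : ℤ) + 1) ^ 2) ∧
    (∀ (n : ℕ) (V : Type) [Fintype V] (S : Fin n → Finset V) (t : ℕ), InvariantSets S →
      (∀ x : V, Nat.card {a : Fin n // x ∈ S a} ≤ t) →
      ∃ χ : V → ℤ, (∀ x, χ x = 1 ∨ χ x = -1) ∧
        ∀ a, |∑ x ∈ S a, χ x| ≤ 3 * ((Nat.log 2 t : ℤ) + 1)) := by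
  classical
  constructor
  · intro n V _ S t hS ht
    obtain ⟨ε, h1, h2⟩ := H782.Kom.zo_mat n V (fun x a b => if x ∈ S a b then 1 else 0) (by
      intro g hg
      obtain ⟨τ, hτ⟩ := hS g hg
      refine ⟨τ, fun x a b => ?_⟩
      show (if τ x ∈ S (g a) (g b) then (1 : ℝ) else 0) = (if x ∈ S a b then 1 else 0)
      simp only [hτ]) (by
      intro x a b
      by_cases h : x ∈ S a b
      · right; simp [h]
      · left; simp [h]) t (by
      intro x
      have h3 := ht x
      rw [Nat.card_eq_fintype_card, Fintype.card_subtype] at h3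
      have h4 : ∑ a, ∑ b, (if x ∈ S a b then (1 : ℝ) else 0) ^ 2 =
          ((Finset.univ.filter fun p : Fin n × Fin n => x ∈ S p.1 p.2).card : ℝ) := by
        rw [Finset.card_filter, ← Fintype.sum_prod_type']
        push_cast
        apply Finset.sum_congr rfl
        intro p _
        split_ifs <;> norm_num
      rw [h4]
      exact_mod_cast h3)
    obtain ⟨χ, h5, h6⟩ := to_int ε h1
    refine ⟨χ, h5, fun a b => ?_⟩
    have h7 := h2 a b
    have h8 : ∑ x, ε x * (if x ∈ S a b then (1 : ℝ) else 0) = ((∑ x ∈ S a b, χ x : ℤ) : ℝ) := by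
      push_cast
      simp only [mul_ite, mul_one, mul_zero]
      rw [Finset.sum_ite_mem, Finset.univ_inter]
      exact Finset.sum_congr rfl fun x _ => (h6 x).symm
    rw [h8] at h7
    exact_mod_cast h7
  · intro n V _ S t hS ht
    obtain ⟨ε, h1, h2⟩ := H782.Kom.zo_vec n V (fun x a => if x ∈ S a then 1 else 0) (by
      intro g hg
      obtain ⟨τ, hτ⟩ := hS g hg
      refine ⟨τ, fun x a => ?_⟩
      show (if τ x ∈ S (g a) then (1 : ℝ) else 0) = (if x ∈ S a then 1 else 0)
      simp only [hτ]) (by
      intro x a
      by_cases h : x ∈ S a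
      · right; simp [h]
      · left; simp [h]) t (by
      intro x
      have h3 := ht x
      rw [Nat.card_eq_fintype_card, Fintype.card_subtype] at h3
      have h4 : ∑ a, (if x ∈ S a then (1 : ℝ) else 0) ^ 2 =
          ((Finset.univ.filter fun a : Fin n => x ∈ S a).card : ℝ) := by
        rw [Finset.card_filter]
        push_cast
        apply Finset.sum_congr rfl
        intro p _
        split_ifs <;> norm_num
      rw [h4]
      exact_mod_cast h3)
    obtain ⟨χ, h5, h6⟩ := to_int ε h1
    refine ⟨χ, h5, fun a => ?_⟩
    have h7 := h2 a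
    have h8 : ∑ x, ε x * (if x ∈ S a then (1 : ℝ) else 0) = ((∑ x ∈ S a, χ x : ℤ) : ℝ) := by
      push_cast
      simp only [mul_ite, mul_one, mul_zero]
      rw [Finset.sum_ite_mem, Finset.univ_inter]
      exact Finset.sum_congr rfl fun x _ => (h6 x).symm
    rw [h8] at h7
    exact_mod_cast h7

end Pool.Agent.Results.MP_e8ee11_co.InvariantSystems
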